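import Pool.Agent.K6.H87.E8.Fin

set_option autoImplicit false

/-!
# A supercongruence for Pell-companion-weighted sums of squared central binomial coefficients, with factor `k`

For every prime `p ≡ 1, 3` modulo `8`, written as `p = x² + 2y²` with `x ≡ 1` or `3` modulo `8`, the sum
`S_1(p) = ∑_{k<p} k Q_k C(2k,k)² / (-8)^k` is `0` modulo `p²` if `p ≡ 1` modulo `8`, and
`(-1)^((p-3)/8) 2 (x + p/x)` modulo `p²` if `p ≡ 3` modulo `8` (Q2).

Proof. Let `m = (p-1)/2`, `r² = 2`, `λ = -2(1+r)`, `λ' = -2(1-r)`, `F(z) = ∑ C(m,k) C(m+k,k) (-z)^k`,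
`K(z) = ∑ C(m,k)² z^k`, `E(w) = ∑ C(m,k) C(2k,k) w^k`, `θ = z d/dz`. Then `S_1(p) = θF(λ) + θF(λ')` modulo `p²`.
The starting modules of project E8 (the proof of Q1) contain polynomial identities between `F`, `K`, `E`: the
transformations of Pfaff and of Landen, `2 E = F + K` modulo `p²`, and an identity (II) with `z^p` and
`(1-z)^p`. All of them hold over every ring, so they can be differentiated with the help of the dual numbers.
At `z = λ'` this gives two linear relations modulo `p²`: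
`F(λ') = F(λ)`, `θF(λ') = - θF(λ)` if `p ≡ 1` modulo `8`, and
`F(λ') = -(1+r)² F(λ)`, `θF(λ') = (1+r)^6 θF(λ) + 2 (1+r)^4 F(λ)` if `p ≡ 3` modulo `8`.
The first case is settled. In the second case `θE((1+r)/2)` is `m (E_m - E_{m-1})`, and `E_{m-1}` is expressed by
the sums `T(x) = ∑ (-1)^k C(x,k)²` at `x = -3/4` and at `x = -7/4`: the second one is divisible by `p`, and it
has the closed form given by the recursion `(x+2) T(x+2) = -4 (x+1) T(x)`, starting with `T(1+pc) = -2pc`. The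
product of the two sums is `p 16^q / 6`, `p = 8q+3`, and this gives `S_1 v = v² + 5p` with `v = S_0/2 = 2X - p/(2X)`,
`X = (-1)^q x`; so `S_1 = 2 (X + p/X)`.
-/

namespace Pool.Agent.Results.MP_a989c0_nt.QTwo

open Finset

/-- the companion Pell sequence `Q_0 = Q_1 = 2`, `Q_{n+2} = 2 Q_{n+1} + Q_n` -/
def Q : ℕ → ℤ
  | 0 => 2
  | 1 => 2
  | n + 2 => 2 * Q (n + 1) + Q n

/-- the sum `S_1(p)` of the problem -/
def S1 (p : ℕ) : ℚ := ∑ k ∈ range p, (k : ℚ) * (Q k : ℚ) / (-8) ^ k * ((2 * k).choose k : ℚ) ^ 2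

/-- `u ≡ v` modulo `p^m`, i.e. `u - v` is `p^m` times a rational number whose denominator is prime to `p` -/
def Cong (p m : ℕ) (u v : ℚ) : Prop := ∃ (n : ℤ) (d : ℕ), ¬ p ∣ d ∧ u - v = (p : ℚ) ^ m * (n / d)

theorem Q_eq (n : ℕ) : Q n = Pool.Agent.Q267.E8.Qn n ∧ Q (n + 1) = Pool.Agent.Q267.E8.Qn (n + 1) := by
  induction n with
  | zero => exact ⟨rfl, rfl⟩
  | succ n ih =>
    refine ⟨ih.2, ?_⟩
    rw [Q, Pool.Agent.Q267.E8.Qn, ih.1, ih.2]

theorem S1_eq (p : ℕ) : S1 p = Pool.Agent.K6.H87.E8.S1 p := by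
  unfold S1 Pool.Agent.K6.H87.E8.S1
  refine sum_congr rfl fun k _ => ?_
  rw [(Q_eq k).1]

/-- the case `p = 3` -/
theorem three : Cong 3 2 (S1 3) 8 := by
  refine ⟨-1, 4, by norm_num, ?_⟩
  rw [S1, sum_range_succ, sum_range_succ, sum_range_succ, sum_range_zero]
  have h0 : Q 0 = 2 := rfl
  have h1 : Q 1 = 2 := rfl
  have h2 : Q 2 = 6 := rfl
  have c0 : (2 * 0).choose 0 = 1 := rfl
  have c1 : (2 * 1).choose 1 = 2 := rfl
  have c2 : (2 * 2).choose 2 = 6 := rfl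
  rw [h0, h1, h2, c0, c1, c2]
  norm_num

/-- the statement for `p ≡ 3` modulo `8` and `x ≡ 1` modulo `4` -/
theorem aux (p : ℕ) (hp : p.Prime) (h8 : p % 8 = 3) (x y : ℤ) (hxy : (p : ℤ) = x ^ 2 + 2 * y ^ 2)
    (hx : x % 4 = 1) : Cong p 2 (S1 p) (2 * ((x : ℚ) + (p : ℚ) / (x : ℚ))) := by
  have : Fact p.Prime := ⟨hp⟩
  rcases Nat.lt_or_ge 3 p with h3 | h3
  · rw [S1_eq]
    exact Pool.Agent.K6.H87.E8.cong3 p h8 h3 x y hxy (by omega)
  · have hp3 : p = 3 := by omega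
    subst hp3
    have hxy' : (3 : ℤ) = x ^ 2 + 2 * y ^ 2 := by exact_mod_cast hxy
    have hx2 : x ^ 2 ≤ 3 := by nlinarith [sq_nonneg y]
    have hx1 : x = 1 := by
      have : x ≤ 1 := by nlinarith
      have : -2 < x := by nlinarith
      omega
    subst hx1
    have h := three
    norm_num at h ⊢
    exact h

/-- residues modulo `16` -/
theorem mod16 (p : ℕ) (h8 : p % 8 = 3) (x y : ℤ) (hxy : (p : ℤ) = x ^ 2 + 2 * y ^ 2) :
    (x % 8 = 1 → Even ((p - 3) / 8)) ∧ (x % 8 = 3 → Odd ((p - 3) / 8)) := by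
  have hy : y % 2 = 1 := by
    rcases Int.emod_two_eq_zero_or_one y with h | h
    · exfalso
      obtain ⟨t, rfl⟩ : ∃ t, y = 2 * t := ⟨y / 2, by omega⟩
      have hx : x % 8 = 0 ∨ x % 8 = 1 ∨ x % 8 = 2 ∨ x % 8 = 3 ∨ x % 8 = 4 ∨ x % 8 = 5 ∨ x % 8 = 6 ∨ x % 8 = 7 := by
        omega
      obtain ⟨s, hs⟩ : ∃ s, x = 8 * s + x % 8 := ⟨x / 8, by omega⟩
      have hxx : x ^ 2 = 8 * (8 * s ^ 2 + 2 * s * (x % 8)) + (x % 8) ^ 2 := by
        conv_lhs => rw [hs]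
        ring
      have h1 : (p : ℤ) = 8 * (8 * s ^ 2 + 2 * s * (x % 8) + t ^ 2) + (x % 8) ^ 2 := by
        rw [hxy, hxx]
        ring
      generalize 8 * s ^ 2 + 2 * s * (x % 8) + t ^ 2 = A at h1
      rcases hx with hx | hx | hx | hx | hx | hx | hx | hx <;> rw [hx] at h1 <;> omega
    · exact h
  obtain ⟨t, rfl⟩ : ∃ t, y = 2 * t + 1 := ⟨y / 2, by omega⟩
  have ht : ∃ c, t * (t + 1) = 2 * c := by
    rcases Int.even_mul_succ_self t with ⟨c, hc⟩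
    exact ⟨c, by rw [hc]; ring⟩
  obtain ⟨c, hc⟩ := ht
  constructor
  · intro hx
    obtain ⟨s, hs⟩ : ∃ s, x = 8 * s + 1 := ⟨x / 8, by omega⟩
    have h1 : (p : ℤ) = 16 * (4 * s ^ 2 + s + c) + 3 := by
      rw [hxy, hs]
      linear_combination 8 * hc
    rw [Nat.even_iff]
    generalize 4 * s ^ 2 + s + c = A at h1
    omega
  · intro hx
    obtain ⟨s, hs⟩ : ∃ s, x = 8 * s + 3 := ⟨x / 8, by omega⟩
    have h1 : (p : ℤ) = 16 * (4 * s ^ 2 + 3 * s + c) + 11 := by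
      rw [hxy, hs]
      linear_combination 8 * hc
    rw [Nat.odd_iff]
    generalize 4 * s ^ 2 + 3 * s + c = A at h1
    omega

/-- **The supercongruence of Q2 holds for every prime `p ≡ 1, 3` modulo `8`.** -/
theorem result (p : ℕ) (hp : p.Prime) (h8 : p % 8 = 1 ∨ p % 8 = 3) :
    (∃ x y : ℤ, (p : ℤ) = x ^ 2 + 2 * y ^ 2 ∧ (x % 8 = 1 ∨ x % 8 = 3)) ∧
    ∀ x y : ℤ, (p : ℤ) = x ^ 2 + 2 * y ^ 2 → (x % 8 = 1 ∨ x % 8 = 3) →
      (p % 8 = 1 → Cong p 2 (S1 p) 0) ∧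
      (p % 8 = 3 → Cong p 2 (S1 p) ((-1 : ℚ) ^ ((p - 3) / 8) * (2 * ((x : ℚ) + (p : ℚ) / (x : ℚ))))) := by
  have : Fact p.Prime := ⟨hp⟩
  refine ⟨?_, fun x y hxy hx => ⟨fun h1 => ?_, fun h3 => ?_⟩⟩
  · obtain ⟨x, y, hxy, hx⟩ := Pool.Agent.Q121.E8.rp p h8
    rcases (show x % 8 = 1 ∨ x % 8 = 5 by omega) with h | h
    · exact ⟨x, y, hxy, Or.inl h⟩
    · exact ⟨-x, y, by rw [hxy]; ring, Or.inr (by omega)⟩
  · rw [S1_eq]
    exact Pool.Agent.K6.H87.E8.cong1 p h1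
  · obtain ⟨he, ho⟩ := mod16 p h3 x y hxy
    rcases hx with h | h
    · rw [(he h).neg_one_pow, one_mul]
      exact aux p hp h3 x y hxy (by omega)
    · rw [(ho h).neg_one_pow]
      have h5 := aux p hp h3 (-x) y (by rw [hxy]; ring) (by omega)
      have e : (-1 : ℚ) * (2 * ((x : ℚ) + (p : ℚ) / (x : ℚ))) =
          2 * (((-x : ℤ) : ℚ) + (p : ℚ) / ((-x : ℤ) : ℚ)) := by
        push_cast
        rw [div_neg]
        ring
      rw [e]
      exact h5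

end Pool.Agent.Results.MP_a989c0_nt.QTwo
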